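import Pool.Agent.Lib.MP_fbfa44_gt.IX.Final

/-!
# Minimal hypersurfaces of the sphere with Morse index at most n + 2 are Clifford hypersurfaces

Let `n = m + 1 ≥ 3`.  A closed two-sided minimal hypersurface of the unit sphere `S^n` of
`ℝ^(n+1) = ℝ^(m+2)` is given by a compact manifold `M` without boundary of dimension `m`, a smooth
immersion `x` of `M` into the sphere and a smooth unit normal field `ν` along `x`, such that the
mean curvature vanishes.  Suppose that it is connected, or embedded, or not totally geodesic (so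
an embedded hypersurface is not assumed to be connected), that its image is not a great sphere, and
that its Morse index is at most `n + 2 = m + 3`.  Then the hypersurface is embedded, and a linear
isometry of `ℝ^(n+1)` takes it onto the Clifford hypersurface
`S^k(√(k/m)) × S^l(√(l/m))`, `k + l = m = n - 1`, `k, l ≥ 1`.

The area measure of the induced metric is characterised in charts (`√(det g) dy`); its existence
and uniqueness are part of the theorem.
-/

namespace Pool.Agent.Results.MP_fbfa44_gt.LowIndexClifford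

open MeasureTheory
open scoped Manifold ContDiff

/-- Euclidean space `ℝ^n`. -/
abbrev E (n : ℕ) : Type := EuclideanSpace ℝ (Fin n)

/-- The `i`-th coordinate vector of `ℝ^n`. -/
noncomputable def coord {n : ℕ} (i : Fin n) : E n := EuclideanSpace.single i (1 : ℝ)

section
variable (m : ℕ) {M : Type} [TopologicalSpace M] [ChartedSpace (E m) M]

/-- The derivative at `p` of a map `f` from the `m`-dimensional manifold `M` to a normed space, a
linear map on the tangent space of `M` at `p`, which Mathlib identifies with `ℝ^m`. -/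
noncomputable def der {F : Type} [NormedAddCommGroup F] [NormedSpace ℝ F] (f : M → F) (p : M) :
    E m →L[ℝ] F :=
  mfderiv (𝓡 m) 𝓘(ℝ, F) f p

/-- `f` is a `C^∞` map from the `m`-dimensional manifold `M` to a normed space. -/
def Smooth {F : Type} [NormedAddCommGroup F] [NormedSpace ℝ F] (f : M → F) : Prop :=
  ContMDiff (𝓡 m) 𝓘(ℝ, F) ∞ f

end

/-- A smooth immersion `x` of the `m`-dimensional manifold `M` into the unit sphere of `ℝ^(m+2)`
together with a smooth unit normal field `ν`. -/
structure Hypersurface (m : ℕ) (M : Type) [TopologicalSpace M] [ChartedSpace (E m) M] where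
  /-- the immersion -/
  x : M → E (m + 2)
  /-- the unit normal field -/
  ν : M → E (m + 2)
  smooth_x : Smooth m x
  smooth_ν : Smooth m ν
  immersion : ∀ p : M, Function.Injective (der m x p)
  norm_x : ∀ p : M, ‖x p‖ = 1
  norm_ν : ∀ p : M, ‖ν p‖ = 1
  inner_ν_x : ∀ p : M, (inner ℝ (ν p) (x p) : ℝ) = 0
  inner_ν_dx : ∀ (p : M) (v : E m), (inner ℝ (ν p) (der m x p v) : ℝ) = 0

namespace Hypersurface

variable {m : ℕ} {M : Type} [TopologicalSpace M] [ChartedSpace (E m) M] (S : Hypersurface m M)

/-- The matrix `g_ij = ⟨dx(e_i), dx(e_j)⟩` of the induced metric on the tangent space at `p`. -/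
noncomputable def metric (p : M) : Matrix (Fin m) (Fin m) ℝ :=
  Matrix.of fun i j => inner ℝ (der m S.x p (coord i)) (der m S.x p (coord j))

/-- The matrix `A_ij = -⟨dν(e_i), dx(e_j)⟩` of the second fundamental form at `p`. -/
noncomputable def second (p : M) : Matrix (Fin m) (Fin m) ℝ :=
  Matrix.of fun i j => -inner ℝ (der m S.ν p (coord i)) (der m S.x p (coord j))

/-- The mean curvature `tr (g⁻¹ A)`. -/
noncomputable def meanCurvature (p : M) : ℝ := ((S.metric p)⁻¹ * S.second p).trace

/-- The squared norm `|A|² = tr (g⁻¹ A g⁻¹ A)` of the second fundamental form. -/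
noncomputable def normSqA (p : M) : ℝ :=
  ((S.metric p)⁻¹ * S.second p * ((S.metric p)⁻¹ * S.second p)).trace

/-- The squared norm `|∇f|² = ∑ g^ij f_i f_j` of the gradient. -/
noncomputable def gradSq (f : M → ℝ) (p : M) : ℝ :=
  ∑ i, ∑ j, (S.metric p)⁻¹ i j * der m f p (coord i) * der m f p (coord j)

/-- The hypersurface is minimal: its mean curvature vanishes. -/
def IsMinimal : Prop := ∀ p, S.meanCurvature p = 0

/-- The hypersurface is equatorial: its image is a great sphere. -/
def IsEquatorial : Prop :=
  ∃ u : E (m + 2), ‖u‖ = 1 ∧ Set.range S.x = {y | ‖y‖ = 1 ∧ (inner ℝ u y : ℝ) = 0}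

/-- The matrix `g_ij` of the induced metric at the point `y` of the chart at `p₀`. -/
noncomputable def metricChart (p₀ : M) (y : E m) : Matrix (Fin m) (Fin m) ℝ :=
  Matrix.of fun i j => inner ℝ (fderiv ℝ (S.x ∘ (chartAt (E m) p₀).symm) y (coord i))
    (fderiv ℝ (S.x ∘ (chartAt (E m) p₀).symm) y (coord j))

/-- `μ` is the area measure of the induced metric: in the chart at every point `p₀` it is
`√(det g) dy`. -/
def IsAreaMeasure [MeasurableSpace M] (μ : Measure M) : Prop :=
  ∀ p₀ : M, ∀ s : Set M, MeasurableSet s → s ⊆ (chartAt (E m) p₀).source →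
    μ s = ∫⁻ y in chartAt (E m) p₀ '' s, ENNReal.ofReal (Real.sqrt (S.metricChart p₀ y).det)

/-- The second variation of area in the direction `f ν`, `∫ |∇f|² - (|A|² + m) f²`, `m = n - 1`. -/
noncomputable def secondVariation [MeasurableSpace M] (μ : Measure M) (f : M → ℝ) : ℝ :=
  ∫ p, (S.gradSq f p - (S.normSqA p + m) * f p ^ 2) ∂μ

/-- The Morse index is at most `N`: every linear space of smooth functions on which the second
variation is negative definite has dimension at most `N`. -/
def MorseIndexLE [MeasurableSpace M] (μ : Measure M) (N : ℕ) : Prop :=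
  ∀ V : Submodule ℝ (M → ℝ), (∀ f ∈ V, Smooth m f) →
    (∀ f ∈ V, f ≠ 0 → S.secondVariation μ f < 0) → Module.rank ℝ V ≤ N

end Hypersurface

/-- The Clifford hypersurface `S^k(√(k/m)) × S^(m-k)(√((m-k)/m))` of the unit sphere of
`ℝ^(m+2) = ℝ^(k+1) × ℝ^(m-k+1)`: the first `k + 1` coordinates have squared norm `k/m` and the
other ones `(m-k)/m`. -/
def clifford (m k : ℕ) : Set (E (m + 2)) :=
  {y | (∑ i : Fin (m + 2), if (i : ℕ) < k + 1 then y i ^ 2 else 0) = k / m ∧
    (∑ i : Fin (m + 2), if (i : ℕ) < k + 1 then 0 else y i ^ 2) = (m - k : ℝ) / m}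

/-- A closed minimal hypersurface of the unit sphere `S^(m+1)`, `m ≥ 2`, which is connected or
embedded or not totally geodesic, is not a great sphere and has Morse index at most `m + 3`, is
embedded and congruent to a Clifford hypersurface. -/
theorem result (m : ℕ) (hm : 2 ≤ m) (M : Type) [TopologicalSpace M] [T2Space M] [CompactSpace M]
    [Nonempty M] [ChartedSpace (E m) M] [IsManifold (𝓡 m) ∞ M] [MeasurableSpace M] [BorelSpace M]
    (S : Hypersurface m M)
    (hS : ConnectedSpace M ∨ Function.Injective S.x ∨ ∃ p, S.normSqA p ≠ 0)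
    (hmin : S.IsMinimal) (hne : ¬ S.IsEquatorial) :
    (∃! μ : Measure M, S.IsAreaMeasure μ) ∧
    ∀ μ : Measure M, S.IsAreaMeasure μ → S.MorseIndexLE μ (m + 3) →
      ∃ k : ℕ, 1 ≤ k ∧ k + 1 ≤ m ∧ ∃ L : E (m + 2) ≃ₗᵢ[ℝ] E (m + 2),
        Set.range S.x = L '' clifford m k ∧ Function.Injective S.x :=
  MPfbfa44.final2 m hm M ⟨S.x, S.ν, S.smooth_x, S.smooth_ν, S.immersion, S.norm_x, S.norm_ν,
    S.inner_ν_x, S.inner_ν_dx⟩ hS hmin hne

end Pool.Agent.Results.MP_fbfa44_gt.LowIndexClifford
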